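import Pool.Agent.Run7.h192.Murre.Abcd

/-!
# Murre's conjectures (A), (B), (C), (D): one idempotent and one codimension, in large dimensions

Let `𝒱` be a class of smooth projective varieties over a field `k` which is closed under products
(for example all of them), with Chow groups `C` (rational coefficients) and a Weil cohomology theory
`W`. `MurreABCD W X`: `X` has Chow–Künneth decompositions (A); for all of them
`F^0 CH^i(X) = CH^i(X)` (B); the filtrations do not depend on the decomposition (C);
`F^1 CH^i(X)` consists of the homologically trivial classes (D).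

We say that `Z` satisfies (D) in the middle if `dim Z = 2 r`, `h(Z) = A ⊕ B` with
`H(A) = H^(≤ 2 r)(Z)`, `H(B) = H^(> 2 r)(Z)` and `Hom(A, B) = 0`, and the transpose of the projector
onto `A` acts as zero on the homologically trivial classes in `CH^r(Z)`.

1. Let `1 ≤ dim Y` and `dim X ≤ dim Y`, suppose that the only idempotent correspondence of degree
   zero of `Y × X` which acts as zero on cohomology is `0`, and that `Y × X` satisfies (D) in the
   middle. Then (A), (B), (C), (D) hold for `X`.
2. The following are equivalent: (A), (B), (C), (D) hold for all varieties; (A) and (D) hold for all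
   varieties; for arbitrarily large `r`, all varieties `Z` of dimension `2 r` satisfy (D) in the
   middle, and the only idempotent in `CH^(2 r)(Z × Z)` which acts as zero on cohomology is `0`.
-/

open Pool.Agent.H914 Pool.Agent.R903 Pool.Agent.Run7.h192.Murre

universe u v w

namespace Pool.Agent.Results.MP_38de51_ag.ABCDInTheMiddle

theorem result {k : Type u} [Field k] {𝒱 : VarClass k} {C : ChowTheory.{u, v} 𝒱}
    (W : WeilTheory.{u, v, w} C) (hP : C.Polarized) :
    (∀ X Y : 𝒱.Obj, 1 ≤ Y.dim → X.dim ≤ Y.dim → W.NoPhantoms (Y.prod X) → MiddleD W (Y.prod X) →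
      MurreABCD W X) ∧
    ((∃ c : 𝒱.Obj, c.dim = 1) →
      [∀ X : 𝒱.Obj, MurreABCD W X,
        ∀ X : 𝒱.Obj, W.HasCK X ∧ MurreD W X,
        InLargeEvenDimensions fun X => W.NoPhantoms X ∧ MiddleD W X].TFAE) :=
  middleABCD W hP

end Pool.Agent.Results.MP_38de51_ag.ABCDInTheMiddle
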