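import Mathlib
import Pool.Agent.Run7.h16.MA.Angle
import Pool.Agent.Run7.h16.OT.Rel
import Pool.Agent.Run7.h16.MO.Main

/-!
# The conjectures of Murre for products of arbitrary varieties with constant abelian varieties of maximal
angle rank

Let `K i` (finitely many) be CM fields, `π i ∈ K i` Weil numbers for `p ^ a` (algebraic integers with
all complex absolute values `p ^ (a / 2)`), and `f i` monic polynomials with integral coefficients whose
complex roots are conjugates of `π i`.

**(1)** Let the fields `K i` be abelian over `ℚ`, and suppose that

* (`NormsIndecomposable`) for each subfield `T` of `K i` which is cyclic over `ℚ` and not totally real,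
  no positive power of the norm of `π i` to `T` is a product of elements of proper subfields of `T`;
* (`RealIntersections`) isomorphic subfields of two different fields `K i` are totally real.

Then there are no multiplicative relations between the conjugates of the `π i` and `p ^ a`, except
for the trivial ones (`MaximalAngleRank`).

**(2)** Suppose `MaximalAngleRank`, for any CM fields `K i`. Let `A` be an abelian variety over an
extension `k` of the field with `p ^ a` elements, isogenous to a product of powers of the abelian
varieties with the characteristic polynomials `f i`. Let `Y` be **any** smooth projective variety over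
`k`, of any dimension, such that homologically trivial self-correspondences of `A × Y` of degree zero
are nilpotent (this is a theorem of Kimura and Jannsen if the motive of `Y` is of abelian type, for
instance for products of curves) and whose Frobenius eigenvalues `ρ` satisfy `Outside K`: if a
positive power of `ρ` is a product of elements of the fields `K i` (embedded in `ℂ` in any way) then a
positive power of `ρ` is real. Let `Z` be the generic fibre of a morphism `Y → S`, a variety over the
function field `k'` of `S`, and let `A' = A_{k'}` be the constant abelian variety. Then
(`MurreForProduct`)

* the classes in `CH^i(A' × Z)` can be written in a unique way as sums `∑ D j × z j` with fixed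
  products `D j` of `deg j` divisor classes and `z j ∈ CH^(i - deg j)(Z)`;
* the product of Chow-Kunneth decompositions of `A'` and `Z` is one of `A' × Z`, and the step `F^n` of
  the filtration of Murre on `CH^i(A' × Z)` is the sum of the `D j × F^n CH^(i - deg j)(Z)`;
* each of the conjectures of Murre, the two halves of (B) and (D), holds for `A' × Z` if and only if
  it holds for `Z`.

For `Z = Spec k'`, where `k'` is the function field of a curve or of any variety `Y = S` as above, these
are the conjectures of Murre for `A'`; there they hold, as they do for the point.

The condition `Outside K` is satisfied by `ρ` if no power of `ρ` lies in the compositum of the normal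
closures of the fields `K i`, but the field `ℚ(ρ)` may contain the `K i`. The starting file
(LatticeBoxes) treats Weil polynomials outside of a set of density zero, without a criterion for given
ones, and needs that the eigenvalues of `Y` generate a group of small rank. In the maximal angle rank
case all `Y` with `Outside K` are allowed, and (1) gives an explicit criterion for the numbers
`π i`, which is also necessary (`MP_021685_ag` AbelianFieldsTimesVarieties (1)).

The proof. If a product of conjugates of the `π i` and of a power of `ρ` is a power of `p ^ a`, then a
power of `ρ` is a product of elements of the `K i`, hence a power of `ρ` is real, and the quotient of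
the relation and of its complex conjugate is a relation between the conjugates of the `π i`, which is
trivial. So the eigenvalues of Frobenius on `H(A) ⊗ H(Y)` that are powers of `p ^ a` come from the
divisor classes on `A`, and the Kunneth formula for the Chow groups and the rest follow by the
arguments of the starting files (helpers 484, 166 and 1).
-/

set_option autoImplicit false

namespace Pool.Agent.Results.MP_38de51_ag.AbelianFields

open NumberField Polynomial Pool.Agent.Y1.CT Pool.Agent.Y137.MV Run7.h16.AB Run7.h16.OT Run7.h16.MO

/-- Algebraic integers with all complex absolute values `p ^ (a / 2)`. -/
structure WeilNumbers (p a : ℕ) {I : Type} {K : I → Type} [∀ i, Field (K i)]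
    [∀ i, NumberField (K i)] (π : ∀ i, K i) : Prop where
  integral : ∀ i, IsIntegral ℤ (π i)
  weil : ∀ i, ∀ φ : K i →+* ℂ, ‖φ (π i)‖ ^ 2 = (p : ℝ) ^ a

/-- **The conjectures of Murre for `A' × Z` and for `Z` are equivalent.** -/
theorem result (p : ℕ) [Fact p.Prime] (I : Type) [Fintype I] (K : I → Type) [∀ i, Field (K i)]
    [∀ i, NumberField (K i)] [∀ i, IsCMField (K i)] (π : ∀ i, K i) (a : ℕ) (ha : 0 < a)
    (h : WeilNumbers p a π) :
    (∀ [∀ i, IsAbelianGalois ℚ (K i)], NormsIndecomposable π → RealIntersections K →
      MaximalAngleRank (p ^ a) π) ∧
    (MaximalAngleRank (p ^ a) π → ∀ f : I → ℤ[X], (∀ i, IsPolyOf (π i) (f i)) →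
      MurreOutside K (p ^ a) f) := by
  refine ⟨?_, ?_⟩
  · intro _ hA hB
    exact Run7.h16.MA.angle_of_abelian h.integral ha h.weil hA hB
  · intro hang f hf
    exact murreOutside (Nat.one_lt_pow ha.ne' (Fact.out : p.Prime).one_lt)
      (noRel_out hang (fun i => conj_eq (h.weil i)) hf)

end Pool.Agent.Results.MP_38de51_ag.AbelianFields
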