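import Pool.Agent.Run7.h848.XG.Murre

/-!
# The failures of the conjectures of Murre on the powers of a variety

Let `X` be a smooth projective variety over a field with a self-dual Chow–Künneth decomposition, and
give its powers `X ^ n` the product decompositions. Call a cycle on `X ^ n` *bad* if it lies in the sum of
the groups `CH_l((X ^ n)_i)` with `i < 2 l` and of the homologically trivial parts of the groups
`CH_l((X ^ n)_{2 l})`. So (B) and (D) hold for `X ^ n` if and only if there is no bad cycle different from
`0`. Let `μ(n)` be the dimension, maybe infinite, of the space of the bad cycles on `X ^ n`, `ρ(n)` the rank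
modulo numerical equivalence of the group of the cycles on `X ^ n`, and `b` the sum of the Betti numbers.

**Theorem.** (1) (law) `μ(n) / ρ(n)` converges to a limit `N` in `{0, 1, 2, …, ∞}`, and `N = 0` if and only if
(B) and (D) hold for all powers of `X` (then (C) holds as well, by what is known). If `N` is finite then `X`
is finite-dimensional in the sense of Kimura; if `N = k` then compositions of `k` homologically trivial
correspondences between powers of `X` which respect the decompositions act as zero on the bad cycles, and
compositions of `k + 1` of them are zero.

(2) (gap) If (B) or (D) fails for ONE power `X ^ m` then for ALL `n` with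
`2 n ≥ 128 (m + 1) ^ 2 b ^ (2 m + 6)`: `μ(2 n) ≥ ρ(2 n) / 2` and `μ(2 n) ≥ b ^ (2 n) / (2 (n + 1) ^ (b ^ 2))`.

(3) (exponential growth) If `X` is not finite-dimensional in the sense of Kimura then (D) fails very
often: there is a real `c > b` such that for every `k ≥ 1` the compositions of `k` homologically trivial
correspondences, as elements of the sum of the groups `CH_l((X ^ n)_{2 l})_hom`, generate a space of
dimension at least `c ^ n` for all large `n`, even modulo smash-nilpotence.

(4) (algebraic indices) If for a motive `Y` with a Chow–Künneth decomposition the cohomology `H_i(Y)` is
zero or spanned by algebraic classes and there is a bad cycle `v ≠ 0` in the Chow groups of `Y_i`, then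
`dim bad (Y ^ (n + 1)) ≥ (n + 1) ρ(Y ^ n)` for ALL `n ≥ 0`; and `N = ∞` in (1) if `Y` is a power of `X`. So for
instance (B) and (D) hold for such an index `i` of `Y` if `dim bad (Y × Y) < 2 ρ(Y)`.

The setting. `C` is the category of the Chow motives with a Chow–Künneth decomposition; a morphism is a
correspondence (of any degree `r`) which maps `Y_i` to `Z_{i + 2 r}` for all `i`. This is a pseudo-abelian
rigid symmetric monoidal category, the cohomology is a tensor functor `R` to super vector spaces, and the
projector onto the even part is a morphism, so the sign conjecture is true for all objects. `T = h(X)`.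
`MurreSystem` describes the Chow groups of the objects and their parts `gr ν Y = ⊕ CH_l(Y_{2 l + ν})`, with
`gr 0 Y = Hom(1, Y)`.

Proof. The bad cycles form an additive functor on `C` which is zero at the unit object. (1), (2): law,
structure and gap of `N64/AF` of the starting tree for this functor, together with (3) for the
finite-dimensionality. (3): `expo_growth_deep`, see `MP_32dfd1_ag.NoOddCohomology`: insert a
non-nilpotent homologically trivial correspondence into the factors of subsets. (4): cut out `Y_i` by
algebraic classes (`PF/Cut`); so `v` is fixed by a numerically trivial endomorphism, and the insertions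
of `v` into the `n + 1` factors of `Y ^ (n + 1)` are independent.
-/

set_option autoImplicit false

open CategoryTheory MonoidalCategory
open Pool.Agent.Y112.SR Pool.Agent.Y112.KD Pool.Agent.N64.AF Pool.Agent.Run7.h848.XG

namespace Pool.Agent.Results.MP_38de51_ag.FailuresOnPowers

universe v u w x

/-- Law, gap and growth for the failures of the conjectures (B) and (D) of Murre on the powers of a
variety with a self-dual Chow–Künneth decomposition. -/
theorem result {C : Type u} [Category.{v} C] [Preadditive C] [MonoidalCategory C]
    [MonoidalPreadditive C] [SymmetricCategory C] [RightRigidCategory C]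
    [Linear ℚ C] [MonoidalLinear ℚ C] [IsIdempotentComplete C]
    {K : Type w} [Field K] [IsAlgClosed K] [Algebra ℚ K] {R : SuperRealisation C K}
    {T : C} [ExactPairing T T] (h : IsPow ℚ R T) (M : MurreSystem.{v, u, 0, x} C ℚ) :
    (∀ Y : C, M.mu h.real Y = 0 ↔ M.BD R Y) ∧
    M.Law h.real T ∧
    Gap ℚ R T (fun m => ¬ M.BD R (tp T m)) (fun n => M.mu h.real (tp T n)) ∧
    KimuraOrFast R T ∧ M.AlgebraicIndices h.real :=
  ⟨fun Y => M.mu_eq_zero h.real Y, murre_main h M⟩

end Pool.Agent.Results.MP_38de51_ag.FailuresOnPowers
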