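import Mathlib
import Pool.Agent.Run7.h8.IC.Out
import Pool.Agent.Run7.h8.IC.WConv

/-!
# The conjectures of Murre for products of arbitrary varieties with constant abelian varieties
whose Weil numbers lie in CM fields with isolated cycles of automorphisms

Let `π i` be finitely many Weil numbers as below, and let `f i` be monic polynomials with integral
coefficients whose complex roots are conjugates of `π i` (`IsPolyOf`). We consider abelian
varieties `A` over finite extensions `k` of the field with `p ^ a` elements which are isogenous to
products of powers of abelian varieties with the characteristic polynomials `f i` of the
Frobenius, and the constant abelian varieties `A_{k'}` over function fields `k'` over `k`.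

The Weil numbers. Let `π i` be Weil numbers for `q = p ^ a` (algebraic integers with `π i * conj
(π i) = q`) in CM fields `K i`, finitely many. For a CM subfield `T` of `K i` let `unitNorm` be
the norm `N` of `π i` to `T`, normalised to absolute value one: `N ^ 2 / p ^ (a [K i : T])`. The
slopes of the `π i` are arbitrary. There are two assumptions.

* (`NormsSeparated`) Different embeddings of CM subfields `T i`, `T i'` of the fields (equal subfields
  if `i = i'`) never map positive powers of these numbers to the same complex number. For one
  Weil number `π` in `K` this is equivalent to `NormsGenerate`: for all CM subfields `T` of `K`,
  all positive powers of the normalised norm to `T` generate the field `T`. This condition is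
  necessary: exotic classes (for instance of Weil type) come from norms some powers of which lie
  in smaller fields.
* (`AllCyclic`) For every family of CM subfields `T i` of the `K i`, `i ∈ S ≠ ∅`, some automorphism
  `τ` of `ℂ` has an *isolated cycle* on the complex embeddings of the `T i` (`Isolated`):
  for one embedding `ψ` the cycle of `ψ` under `τ` has `n > 1` elements, where `n` is any power
  of any prime number (or `n = 2 ^ a r ^ b`, `a > 0`, `r` an odd prime number, and the cycle is
  stable under complex conjugation), and `n` does not divide the length of any other cycle,
  except for that of the complex conjugate of `ψ`. By the theorem of Chebotarev this is a
  condition on the decomposition of prime numbers: some prime number, unramified in the `T i`,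
  has exactly one prime ideal, or one pair of complex conjugate prime ideals, in the fields `T i`
  whose residue degree is divisible by `n`, and this residue degree is `n`. Alternatively the
  family may have one of the properties of the starting files: some prime number divides one of
  the discriminants of the `T i`, but its third power does not divide their product; or some
  automorphism of `ℂ` moves at least one and at most four embeddings; and for norms with only two
  slopes `third power` and `four` may be replaced by `fourth power` and `six`.

An example (second part of the theorem, `IsPrimePower`), in which the condition on the CM
subfields is not a hypothesis any more: `K` is **any** CM field of degree `2 r ^ k`, `r` a prime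
number, such that some automorphism of `ℂ` acts on the pairs of complex conjugate embeddings of
`K` as one cycle (`OneOrbit`; for instance some prime number is inert in the maximal real
subfield of `K`, or is totally ramified there and does not divide the degree). `K` may have many
CM subfields. Then the conclusion is true for every Weil number `π` in `K` with `NormsGenerate`,
and arbitrary slopes. So for abelian varieties of prime power dimension with such a Frobenius
element exotic classes can only be explained by norms to CM subfields. (For `k = 1`, prime
dimension, an automorphism as in `OneOrbit` always exists, and the result is similar to theorems
of Tankeev and Zarhin.)

The conclusion (`MurreFor`). Let `A` be an abelian variety over `k` as above. Let `Y` be **any**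
smooth projective variety over `k`, of any dimension, such that homologically trivial
self-correspondences of `A × Y` of degree zero are nilpotent (this is a theorem of Kimura and
Jannsen if the motive of `Y` is of abelian type, for instance for products of curves) and whose
Frobenius eigenvalues `ρ` satisfy `Outside K`: if a positive power of `ρ` is a product of elements
of the fields `K i` (embedded in `ℂ` in any way) then a positive power of `ρ` is real. Let `Z` be
the generic fibre of a morphism `Y → S`, a variety over the function field `k'` of `S`, and let
`A' = A_{k'}` be the constant abelian variety. Then (`MurreForProduct`)

(i) the classes in `CH^i(A' × Z)` can be written in a unique way as sums `∑ D j × z j` with fixed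
products `D j` of `deg j` divisor classes and `z j ∈ CH^(i - deg j)(Z)`;

(ii) the product of Chow-Kunneth decompositions of `A'` and `Z` is one of `A' × Z`, and the step
`F^n` of the filtration of Murre on `CH^i(A' × Z)` is the sum of the `D j × F^n CH^(i - deg
j)(Z)`;

(iii) **each of the conjectures of Murre, the two halves of (B) and (D), holds for `A' × Z` if and
only if it holds for `Z`**.

For `Z = Spec k'`, where `k'` is the function field of a curve or of any variety `Y = S` as above,
these are the conjectures of Murre for `A'`; there they hold, as they do for the point. The
statement `MurreOutside` and its deduction from the absence of exotic relations are those of
helper16 (MP_38de51_ag AbelianFields, which treats CM fields that are abelian over `ℚ`) and of the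
starting files; the fields `K i` here can have arbitrary Galois groups.

The starting files (MP_021685_ag OneFrobenius, MP_0fca13_ag TateRingOfPowers) have the criterion
for families of CM subfields with the alternative properties in `AllCyclic`, and with automorphisms
which act on the pairs of conjugate embeddings as one cycle of odd *prime* length and *fix all
other embeddings*. New is that the length can be any prime power, including powers of two, or `2
^ a r ^ b`, and that the other embeddings can move, as long as the lengths of their cycles are
not divisible by `n`; so the second part of the theorem is new for all `k > 1`. The reduction to
the slopes and the descent to the CM subfields are those of the starting files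
(`Pool.Agent.W527`).

The proof. A multiplicative relation between the conjugates of the `π i` gives an odd function
`c` on the embeddings of a family of CM subfields, as small as possible, such that `∑ c (z) w (g
z) = 0` for all automorphisms `g`, where `w` is the function given by the slopes of the norms. We
apply this to `g τ ^ j`, multiply by `ζ ^ (-j)`, where `ζ` is a primitive `n`-th root of unity,
and sum over `j`. The cycles whose length is not divisible by `n` do not contribute. So for all
automorphisms `h`, `g` the product of `∑ c (h τ ^ i ψ) ζ ^ i` and of `∑ w (g τ ^ j ψ) ζ ^ (-j)`
is zero. If the first sum is zero for all `h`, then the irreducibility of the cyclotomic
polynomial gives `c (h ψ) = c (h τ ^ (n / r) ψ)` for all `h`, so that `c` comes from smaller CM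
subfields, a contradiction. If not, then in the same way `w (g ψ) = w (g τ ^ (n / r) ψ)` for all
`g`, which contradicts `NormsSeparated`. So the angle rank is maximal: the only multiplicative
relations are those given by `π i * conj (π i) = q`.
-/

set_option autoImplicit false

namespace Pool.Agent.Results.MP_38de51_ag.IsolatedCycles

open Run7.h8.IC Run7.h8.IC.W

/-- **The conjectures of Murre for `A_{k'} × Z` and for `Z` are equivalent, for the abelian varieties
`A` over finite fields with Weil numbers in CM fields with isolated cycles.** -/
theorem result (p : ℕ) [Fact p.Prime] (a : ℕ) (ha : 0 < a) :
    (∀ (I : Type) [Fintype I] (W : I → WeilNum p a), AllCyclic W → NormsSeparated W →
      MurreFor p a (fun i => (W i).K) (fun i => (W i).π)) ∧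
    ∀ W : WeilNum p a, IsPrimePower W → MurreFor p a (fun _ : Unit => W.K) (fun _ => W.π) :=
  ⟨fun _ _ W h1 h2 => forFamily _ (holdsForCyclic murreFor) ha W h1 h2,
    fun W h => forOne _ (holdsForCyclic murreFor) ha W h⟩

end Pool.Agent.Results.MP_38de51_ag.IsolatedCycles
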